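import Pool.Agent.T2H06.ASM.Adj

/-!
# Adjoint divisors and dominant rational self-maps

Let `X` be a normal projective variety of dimension `n` with canonical singularities, for instance a
projective manifold, and let `L` be a nef Cartier divisor on `X`. Suppose that `r L = a K_X + b M` with
`r ≥ 1`, `a, b ≥ 0` and a Cartier divisor `M` (in the generalised abundance conjecture `a = b = 1` and
`M = r L - K_X` is nef), and let `f : X ⇢ X` be a dominant rational map, of any topological degree,
such that `f^* M ≤ M`, that is, the class of `M - f^* M` on `X` is pseudo-effective (for instance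
`f^* M ≡ M`). No assumption is made on the pull back of `L`. If `ν (L) ≥ j` then the largest dynamical
degree of `f` is attained by `j + 1` consecutive dynamical degrees. Hence `κ (L) = ν (L) = k` if
`κ (L) ≥ k` and if the largest dynamical degree is not attained by `k + 2` consecutive dynamical
degrees; and `L` is numerically trivial if one of the dynamical degrees is larger than all the others.

If `κ (L) = ν (L)` and `r L - K_X` is nef, then `L` is semiample, by the theorem of Kawamata (1985),
which is not formalised here.

The variety is given by the homogeneous coordinates `y` of its generic point (`NormalModel`), the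
rational map by the endomorphism `φ = f^*` of the function field `K`, the divisors by their
multiplicities along the prime divisors `P` of `X` (`IsDivisor`). `Canonical` says that `X` has
canonical singularities, `IsCanonicalDivisor y n C` that `C` is the divisor of a rational `n`-form,
`Cartier` that a divisor has local equations, `Nef` that `q L + H` is semiample for all `q ≥ 1`,
`PullLe y M φ 1` that the class of `M - f^* M` is pseudo-effective on `X`. `DynDegree y n φ p δ` says
that `δ` is the `p`-th dynamical degree, `NumLt y n L j` that `ν (L) < j`: for large `m` and small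
`b / m` the maps given by the sections of `m L + b A` and by `n - j` pencils of hyperplane sections
have degree at most `ε m ^ j`; for nef `L` this means that `L ^ j · H ^ (n - j) = 0`. `IitakaGe`,
`IitakaEq` and `NumEq` say `κ (L) ≥ k`, `κ (L) = k` and `ν (L) = k`.
-/

set_option autoImplicit false

open FF Pool.Agent.W602.GT Pool.Agent.Y172 Pool.Agent.R887 Pool.Agent.T2H06.DYR
  Pool.Agent.T2H06.DYL Pool.Agent.T2H06.ASM
open Pool.Agent.T2H08.CM (IsCanonicalDivisor can_divisor add_divisor)

namespace Pool.Agent.Results.MP_1149f4_ag.AdjointSelfMaps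

/-- The largest value of `δ p`, `p ≤ n`, is attained for `j + 1` consecutive `p`. -/
def LargestAttained (n : ℕ) (δ : ℕ → ℝ) (j : ℕ) : Prop :=
  ∃ q, q + j ≤ n ∧ ∀ i ≤ j, ∀ p ≤ n, δ p ≤ δ (q + i)

/-- Let `X` be a normal projective variety of dimension `n > 0` with canonical singularities, `C` a
canonical divisor, `M` and `L` Cartier divisors, `L` nef, such that `r L = a C + b M`, where `r ≥ 1`
and `a, b ≥ 0`, and let `f` be a dominant rational self-map of `X` such that the class of `M - f^* M`
on `X` is pseudo-effective. The dynamical degrees `δ 0, ..., δ n` of `f` exist, `δ 0 = 1`,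
`δ n = deg f`, and if `ν (L) ≥ j` then the largest of them is attained by `j + 1` consecutive ones. In
particular `κ (L) = ν (L) = k` if `κ (L) ≥ k`, where `k < n`, and it is not attained by `k + 2`
consecutive ones. If it is attained only once, then `L` is numerically trivial, and the sections
`g ≠ 0` of `m L`, `m ≥ 1`, have no zeros: `div g + m L = 0`. -/
theorem result {K : Type} [Field K] [Algebra ℂ K] {N n : ℕ} {y : Fin (N + 1) → K}
    (hy : NormalModel y) (hn : Algebra.trdeg ℂ K = n) (hn0 : 0 < n) (hcan : Canonical y n)
    {C M L : Place ℂ K → ℚ} (hC : IsCanonicalDivisor y n C) (hM : IsDivisor y M)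
    (hMcar : Cartier y n M) (hcar : Cartier y n L) (hnef : Nef y n L) {r a b : ℕ} (hr : 1 ≤ r)
    (hL : r • L = a • C + b • M) (φ : K →ₐ[ℂ] K) (hle : PullLe y M φ 1) :
    ∃ δ : ℕ → ℝ, (∀ p ≤ n, 1 ≤ δ p ∧ DynDegree y n φ p (δ p)) ∧ δ 0 = 1 ∧
      δ n = mapDegree φ ∧
      (∀ j ≤ n, ¬ NumLt y n L j → LargestAttained n δ j) ∧
      (∀ k < n, IitakaGe y L k → ¬ LargestAttained n δ (k + 1) →
        IitakaEq y L k ∧ NumEq y n L k) ∧
      ((∃ p ≤ n, ∀ q ≤ n, q ≠ p → δ q < δ p) →
        NumLt y n L 1 ∧ ∀ m : ℕ, 1 ≤ m → ∀ g : K, IsSec y (m • L) g → g ≠ 0 →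
          ∀ P, IsPrimeDivisor y P → (P.ord g : ℚ) = -(m * L P)) := by
  have hD : IsDivisor y L := divisor_of_mul hr (by
    rw [hL]
    exact add_divisor (can_divisor hy hn hC) hM a b)
  have hpull : PullLe y L φ 1 := pull_of_mul hr (by
    rw [hL]
    exact adj_pullR hy hn hcan hC hMcar a b φ hle)
  obtain ⟨δ, h1, h2, h3, h4'⟩ := dynL hy hn hD hcar hnef φ le_rfl hpull (Or.inl rfl)
  have h4 : ∀ j ≤ n, ¬ NumLt y n L j → ∃ q, q + j ≤ n ∧ ∀ i ≤ j, ∀ p ≤ n, δ p ≤ δ (q + i) := by
    intro j hj hnd
    obtain ⟨q, hq, h⟩ := h4' j hj hnd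
    refine ⟨q, hq, fun i hi p hp => ?_⟩
    have h5 := h i hi p hp
    simpa using h5
  refine ⟨δ, h1, h2, h3, h4, fun k hk hkod hfew => abundance_of_few hy hn h4 hk hkod hfew, ?_⟩
  rintro ⟨p, hp, hmax⟩
  have h5 : NumLt y n L 1 := by
    by_contra hnd
    obtain ⟨q, hq, hle⟩ := h4 1 hn0 hnd
    have h6 : q = p := by
      by_contra hne
      have h7 := hmax q (by omega) hne
      have h8 := hle 0 (Nat.zero_le _) p hp
      rw [add_zero] at h8
      linarith
    have h7 := hmax (q + 1) hq (by omega)
    have h8 := hle 1 le_rfl p hp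
    linarith
  exact ⟨h5, fun m hm g hg hg0 => nef_trivial hy hn hn0 h5 hnef hm hg hg0⟩

end Pool.Agent.Results.MP_1149f4_ag.AdjointSelfMaps
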