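import Pool.Agent.T2H41.UC

/-!
# Generalised abundance for pairs with moving log canonical arrangements

A klt pair `(X, Δ)` of dimension `n` is a pair of the class (`T2H41.Arr.IsArrangementPair`) if it has
the following properties; the class is the one of the theorem `MovingArrangementPairs` of this
repository for the problem `MP_badc2d_ag`. There is a rational map `X ⇢ P^v` whose image `Y`, any
subvariety of `P^v`, has dimension `p`, and

* (the base) hyperplanes `ℓ i = 0` in general position, which do not contain `Y`, and have large
  multiplicities on `X` (`SmallMultiplicities`; for `p = 0` one can take `v = 0`, the empty hyperplane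
  of the point `P^0`, and a weight greater than `1`: then there is no hypothesis);
* (the fibres) a correspondence between `X` and a relative product of projective spaces: a variety
  `X'` with a generically finite map `X' ⇢ X` and a generically finite map over `Y` of `X'` to
  `Y' × P^{r_1} × ... × P^{r_c}`, `r_j ≥ 1`, `Y'` finite over `Y`, and in each `P^{r_j}` any
  hyperplanes `A j i = 0` which move with the point of `Y'`, with weights `w j i` in `[0, 1]` such that
  the arrangement is log canonical, and whose multiplicities at the places of `X'` satisfy the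
  inequalities which say that the pull-back of `K_X + Δ` to `X'` is, horizontally, at least the
  pull-back of the log canonical divisor of the arrangements, and at most this at the divisors of
  the product (`Fibres`).

**Theorem.** Let `(X, Δ)` and `(X, Δ')` be pairs of the class, with `Δ ≤ Δ'`; the maps, the
arrangements and the weights of the two pairs are independent of each other. Suppose that `K_X + Δ` is
pseudoeffective. Let `Z` be a set of prime divisors in the stable base locus of `K_X + Δ`, or in the
support of one effective divisor which is `ℚ`-linearly equivalent to `K_X + Δ`. Let `B` be any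
effective `ℚ`-divisor which has the same support as `Δ' - Δ` outside of `Z`; the multiplicities of `B`
are arbitrary. Let `r > 0` be rational, and let `D` be a `ℚ`-divisor which is `ℚ`-linearly equivalent
to `r (K_X + Δ) + B`. Then `κ (D) = ν (D) = p' + l'`, where `p'` is the dimension of the image of the
map of `(X, Δ')`, and `l'` is the sum of the dimensions `r'_j` for which the sum of the weights
`w' j i` is greater than `r'_j + 1`.

For `Δ = 0` these are the divisors of the conjecture of Lazić and Peternell (generalised abundance):
`K_X` is pseudoeffective and `D = (1 / m) (K_X + N)`, where the class of `N = m D - K_X` contains an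
effective divisor with the given support. If in addition `D` and `m D - K_X` are nef, then `D` is
semiample, by the theorem of Kawamata (1985) on nef and abundant divisors, because the theorem can be
applied to the divisors `t D - K_X` as well; Kawamata's theorem is not formalised here.

For example, let `g : X → P^{r_1} × ... × P^{r_c}` be a finite abelian cover, `X` smooth, which is
branched with the indices `m j i` exactly over the hyperplanes `H j i` (pulled back from the factors,
in general position), `∑ i, (1 - 1 / m j i) ≥ r_j + 1` for all `j`, or let `X` be the quotient of such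
a variety by a finite group which acts freely in codimension one. Then `(X, 0)` is a pair of the
class, with `p = 0`, and so are the pairs `(X, Δ')`, `Δ'` a small multiple of the sum of the reduced
preimages of any of the `H j i` (the weights increase) and of further hyperplanes of the factors.

Proof. For the pairs of the class the sections of the multiples of `K_X + Δ` are known
(`Pool.Agent.Y191`): there are enough of them, and by restriction to suitable families of subvarieties
there are not more, also after addition of an ample divisor. As `K_X + Δ` is pseudoeffective, it is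
`ℚ`-linearly equivalent to an effective divisor `E`, which contains `Z`. So `D` is `ℚ`-linearly
equivalent to `r E + B`, which has the same support as the divisor `E + Δ' - Δ`, which is
`ℚ`-linearly equivalent to `K_X + Δ'`; effective divisors with the same support have the same
dimensions (`T2H41.GA.mainN`).

The language of the library is used: `X` is given by the homogeneous coordinates `y` of its generic
point, the prime divisors of `X` are places `P` of `K`, `P.ord` is the order along `P`.
-/

set_option autoImplicit false
set_option linter.overlappingInstances false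

open FF Filter IntermediateField Pool.Agent Pool.Agent.W602.GT Pool.Agent.Y172 Pool.Agent.Y191
  Pool.Agent.T2H41.Arr

namespace Pool.Agent.Results.MP_1149f4_ag.ArrangementGeneralised

section

variable {K : Type} [Field K] [Algebra ℂ K] {N : ℕ}

/-- `K_X + Δ` is pseudoeffective: for some effective divisor `H` there are arbitrarily large `m` such
that `m (K_X + Δ) + H` has a nonzero section. -/
def Pseudoeffective (y : Fin (N + 1) → K) (n : ℕ) (Δ : Place ℂ K → ℚ) : Prop :=
  ∃ H, Effective y H ∧ ∀ M : ℕ, ∃ m, M ≤ m ∧ h0 y n m (m • Δ + H) ≠ 0

/-- The prime divisor `P` is in the stable base locus of `K_X + Δ`: for all `m ≥ 1` and all nonzero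
sections `ω` of `m (K_X + Δ)`, the divisor `div ω + m Δ` contains `P`. -/
def InStableBase (y : Fin (N + 1) → K) (n : ℕ) (Δ : Place ℂ K → ℚ) (P : Place ℂ K) : Prop :=
  ∀ m : ℕ, 1 ≤ m → ∀ ω : (Fin n → Derivation ℂ K K) → K, ω ≠ 0 →
    Y172.IsSection y n m (m • Δ) ω → ¬ OrdEq P ω (-(m * Δ P))

/-- The prime divisors in `Z` are in the stable base locus of `K_X + Δ`, or they are components of
the divisor `div ω + m Δ` of one nonzero section `ω` of a multiple `m (K_X + Δ)`, `m ≥ 1`. -/
def IsCovered (y : Fin (N + 1) → K) (n : ℕ) (Δ : Place ℂ K → ℚ) (Z : Set (Place ℂ K)) : Prop :=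
  (∀ P ∈ Z, InStableBase y n Δ P) ∨ ∃ m : ℕ, 1 ≤ m ∧ ∃ ω : (Fin n → Derivation ℂ K K) → K,
    ω ≠ 0 ∧ Y172.IsSection y n m (m • Δ) ω ∧ ∀ P ∈ Z, ¬ OrdEq P ω (-(m * Δ P))

/-- `D` is a `ℚ`-divisor on `X`: it has finitely many components. -/
def IsDivisor (y : Fin (N + 1) → K) (D : Place ℂ K → ℚ) : Prop :=
  {P | IsPrimeDivisor y P ∧ D P ≠ 0}.Finite

/-- `D` is `ℚ`-linearly equivalent to `r (K_X + Δ) + B` for some rational number `r > 0`: with
`r = a / b` we have `b D = div η + a Δ + b B` for some `a`-canonical form `η ≠ 0`. -/
def IsAdjoint (y : Fin (N + 1) → K) (n : ℕ) (D Δ B : Place ℂ K → ℚ) : Prop :=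
  ∃ a b : ℕ, 1 ≤ a ∧ 1 ≤ b ∧ ∃ η : (Fin n → Derivation ℂ K K) → K, η ≠ 0 ∧ IsPluri a η ∧
    ∀ P, IsPrimeDivisor y P → OrdEq P η (b * D P - a * Δ P - b * B P)

/-- The rational function `g` on `X` is zero or has `div g + D ≥ 0`. -/
def IsSection (y : Fin (N + 1) → K) (D : Place ℂ K → ℚ) (g : K) : Prop :=
  ∀ P, IsPrimeDivisor y P → g = 0 ∨ -(D P) ≤ P.ord g

/-- `h⁰ (X, D)`: the dimension of the space of the rational functions `g` on `X` which are zero or
satisfy `div g + D ≥ 0`. -/
noncomputable def h0D (y : Fin (N + 1) → K) (D : Place ℂ K → ℚ) : ℕ :=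
  Module.finrank ℂ (Submodule.span ℂ {g : K | IsSection y D g})

open scoped Classical in
/-- The Iitaka dimension of the `ℚ`-divisor `D`: it is `⊥` if `h⁰ (X, m D) = 0` for all `m ≥ 1` such
that `m D` is integral, and otherwise the largest `k` such that the upper limit of
`h⁰ (X, m D) / m ^ k` over these `m` is positive. -/
noncomputable def iitakaDim (y : Fin (N + 1) → K) (D : Place ℂ K → ℚ) : WithBot ℕ :=
  if ∀ m : ℕ, 1 ≤ m → Integral y (m • D) → h0D y (m • D) = 0 then ⊥ else
    ((sSup {k : ℕ | 0 < limsup (fun m : ℕ => (h0D y (m • D) : ENNReal) / (m : ENNReal) ^ k)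
      (atTop ⊓ 𝓟 {m : ℕ | 1 ≤ m ∧ Integral y (m • D)})} : ℕ) : WithBot ℕ)

/-- The numerical dimension of the `ℚ`-divisor `D` with respect to the divisor `A`: the upper limit
of `log h⁰ (X, m D + A) / log m` over the `m ≥ 1` such that `m D + A` is integral. -/
noncomputable def numDim (y : Fin (N + 1) → K) (D A : Place ℂ K → ℚ) : EReal :=
  limsup (fun m : ℕ => ENNReal.log (h0D y (m • D + A) : ENNReal) / (Real.log m : EReal))
    (atTop ⊓ 𝓟 {m : ℕ | 1 ≤ m ∧ Integral y (m • D + A)})

end

/-- **Generalised abundance.** Let `(X, Δ)` and `(X, Δ')` be projective klt pairs of dimension `n` with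
moving log canonical arrangements, with the data `p, r, s, w` and `p', r', s', w'`, `Δ ≤ Δ'`, and let
`K_X + Δ` be pseudoeffective. Let `Z` be a set of prime divisors which are in the stable base locus of
`K_X + Δ`, or components of the divisor of one section of a multiple of `K_X + Δ`. Let `B` be an
effective `ℚ`-divisor which has the same support as `Δ' - Δ` outside of `Z`, and let the `ℚ`-divisor `D`
be `ℚ`-linearly equivalent to `t (K_X + Δ) + B`, `t > 0`. Then the Iitaka dimension and the numerical
dimension of `D` are equal to `p' + l'`, where `l'` is the sum of the dimensions `r' j` for which the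
sum of the weights `w' j i` is greater than `r' j + 1`. -/
theorem result {n : ℕ} {K : Type} [Field K] [Algebra ℂ K] {N : ℕ} {y : Fin (N + 1) → K}
    (hn : Algebra.trdeg ℂ K = n) {Δ Δ' B D : Place ℂ K → ℚ}
    {p c : ℕ} {r s : Fin c → ℕ} {w : ∀ j, Fin (s j) → ℚ} (hΔ : IsArrangementPair y p r s w Δ)
    {p' c' : ℕ} {r' s' : Fin c' → ℕ} {w' : ∀ j, Fin (s' j) → ℚ}
    (hΔ' : IsArrangementPair y p' r' s' w' Δ')
    (hle : ∀ P, IsPrimeDivisor y P → Δ P ≤ Δ' P) (hK : Pseudoeffective y n Δ)
    {Z : Set (Place ℂ K)} (hZ : IsCovered y n Δ Z) (hB : Effective y B)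
    (hBΔ : ∀ P, IsPrimeDivisor y P → P ∉ Z → (B P = 0 ↔ Δ P = Δ' P))
    (hD : IsDivisor y D) (hDB : IsAdjoint y n D Δ B) :
    iitakaDim y D = ((p' + big r' s' w' : ℕ) : WithBot ℕ) ∧
      ∀ A, Effective y A → Integral y A →
        numDim y D A = ((p' + big r' s' w' : ℕ) : EReal) := by
  have e1 : p + ∑ j, r j = n := by
    have h1 := hΔ.1.2.1.symm.trans hn
    exact_mod_cast h1
  have e2 : p' + ∑ j, r' j = n := by
    have h1 := hΔ'.1.2.1.symm.trans hn
    exact_mod_cast h1
  have k1 := known hΔ
  have k2 := known hΔ'
  rw [e1] at k1
  rw [e2] at k2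
  obtain ⟨a, b, ha, hb, η, hη0, hη, hηP⟩ := hDB
  exact (T2H41.GA.mainN hΔ.1.2.2.1 hΔ'.1.2.2.1 k1 k2 hle hK hZ hB hBΔ hD ha hb hη hη0 hηP).2

end Pool.Agent.Results.MP_1149f4_ag.ArrangementGeneralised
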