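import Pool.Agent.T2H08.CM.Adj
import Pool.Agent.T2H06.DYL.PosL

/-!
# Adjoint divisors and commuting birational self-maps

Let `X` be a normal projective variety of dimension `n` with canonical singularities, for instance a
projective manifold, let `M` be a Cartier divisor on `X`, and suppose that the group `ℤ ^ r`, `r ≥ 1`,
acts on `X` by birational self-maps `f_a` such that the classes of `M - f_a^* M` on `X` are
pseudo-effective, for instance `f_a^* M ≡ M`, and such that the largest dynamical degrees of all
`f_a`, `a ≠ 0`, are at least `1 + ε`, for some `ε > 0`. Let `D = a K_X + b M`, `a, b ≥ 0`, be a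
Cartier divisor. Then `r + ν (D) ≤ n - 1`. Hence `κ (D) = ν (D) = n - 1 - r` if
`κ (D) ≥ n - 1 - r`, and `D` is numerically trivial if it is nef and `r ≥ n - 1`.

If `L` is a nef Cartier divisor and `M = m L - K_X` is nef, as in the generalised abundance
conjecture, then this applies to `m L = K_X + M`. If `κ (L) = ν (L)`, then `L` is semiample, by the
theorem of Kawamata (1985), which is not formalised here.

The variety is given by the homogeneous coordinates `y` of its generic point (`NormalModel`), the
birational map `f_a` by the automorphism `ρ a = f_a^*` of the function field `K`, the divisors by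
their multiplicities along the prime divisors `P` of `X`. `Canonical` says that `X` has canonical
singularities, `IsCanonicalDivisor y n C` that `C` is the divisor of a rational `n`-form on `X`,
`Cartier` that a divisor has local equations, `Nef` that `q D + H` is semiample for all `q ≥ 1`,
`PullLe y M (ρ a) 1` that the class of `M - f_a^* M` is pseudo-effective on `X`.
`DynDegree y n (ρ a) p δ` says that `δ` is the `p`-th dynamical degree, `NumLt y n D j` that
`ν (D) < j`: for large `m` and small `b / m` the maps given by the sections of `m D + b A` and by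
`n - j` pencils of hyperplane sections have degree at most `ε m ^ j`, so that the positive product of
`j` copies of `D` and `n - j` hyperplane sections is `0`. For nef `D` this product is the intersection
number. `IitakaGe`, `IitakaEq` and `NumEq` say `κ (D) ≥ k`, `κ (D) = k` and `ν (D) = k`.
-/

set_option autoImplicit false

open FF Pool.Agent.W602.GT Pool.Agent.Y172 Pool.Agent.R887 Pool.Agent.T2H06.DYN
  Pool.Agent.T2H06.DYL Pool.Agent.T2H08.CM

namespace Pool.Agent.Results.MP_1149f4_ag.CommutingAdjointDivisors

/-- Let `X` be a normal projective variety of dimension `n > 0` with canonical singularities, on which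
`ℤ ^ r`, `r > 0`, acts by birational maps `f_a` such that for some `ε > 0` each `f_a`, `a ≠ 0`, has a
dynamical degree which is at least `1 + ε`. Let `C` be a canonical divisor of `X`, let `M` be a
Cartier divisor such that the class of `M - f_a^* M` on `X` is pseudo-effective for all `a` (for
instance `f_a^* M ≡ M`), and let `D = a C + b M`, `a, b ≥ 0`, be a Cartier divisor. Then `ν (D) < j`
if `r + j ≥ n`, that is, `r + ν (D) ≤ n - 1`. In particular `κ (D) = ν (D) = k` if `κ (D) ≥ k`, where
`k < n`, and `r + k ≥ n - 1`. If `D` is nef and `r ≥ n - 1`, then `D` is numerically trivial, and the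
sections `g ≠ 0` of `m D`, `m ≥ 1`, have no zeros: `div g + m D = 0`. -/
theorem result {K : Type} [Field K] [Algebra ℂ K] {N n r : ℕ} {y : Fin (N + 1) → K}
    (hy : NormalModel y) (hn : Algebra.trdeg ℂ K = n) (hn0 : 0 < n) (hcan : Canonical y n)
    (hr : 0 < r) (ρ : (Fin r → ℤ) → (K ≃ₐ[ℂ] K)) (hρ : ∀ s t, ρ (s + t) = ρ s * ρ t) {ε : ℝ}
    (hε : 0 < ε) (hent : ∀ t, t ≠ 0 → ∃ p ≤ n, ∃ δ : ℝ, 1 + ε ≤ δ ∧ DynDegree y n (ρ t) p δ)
    {C M : Place ℂ K → ℚ} (hC : IsCanonicalDivisor y n C) (hM : IsDivisor y M)
    (hMcar : Cartier y n M) (hinv : ∀ t, PullLe y M (ρ t : K →ₐ[ℂ] K) 1) {a b : ℕ}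
    {D : Place ℂ K → ℚ} (hD : D = a • C + b • M) (hcar : Cartier y n D) :
    (∀ j ≤ n, n ≤ r + j → NumLt y n D j) ∧
      (∀ k < n, n ≤ r + k + 1 → IitakaGe y D k → IitakaEq y D k ∧ NumEq y n D k) ∧
      (n ≤ r + 1 → Nef y n D → NumLt y n D 1 ∧ ∀ m : ℕ, 1 ≤ m → ∀ g : K, IsSec y (m • D) g →
        g ≠ 0 → ∀ P, IsPrimeDivisor y P → (P.ord g : ℚ) = -(m * D P)) := by
  have hD' : IsDivisor y D := by
    rw [hD]
    exact add_divisor (can_divisor hy hn hC) hM a b
  have hinv' : ∀ t, PullLe y D (ρ t : K →ₐ[ℂ] K) 1 := by
    intro t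
    rw [hD]
    exact adj_pull hy hn hcan hC hMcar a b (ρ t) (hinv t)
  obtain ⟨h1, h2⟩ :=
    Pool.Agent.T2H08.CM.commutingL_abundance hr hρ hy hn hn0 hD' hcar hinv' hε hent
  refine ⟨h1, h2, fun hnr hnef => ?_⟩
  have h3 : NumLt y n D 1 := h1 1 hn0 hnr
  exact ⟨h3, fun m hm g hg hg0 => nef_trivial hy hn hn0 h3 hnef hm hg hg0⟩

end Pool.Agent.Results.MP_1149f4_ag.CommutingAdjointDivisors
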