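import Pool.Agent.T2H41.GA

/-!
# Generalised abundance for varieties commensurable with nondegenerate complete intersections

Let `f 1, ..., f q` and `h 1, ..., h p` be Laurent polynomials in `n + q` variables over `ℂ`,
`n ≥ 1`, and let `X₀` be an irreducible component, of dimension `n`, of the set of the common zeros
of the `f l` in the torus `(ℂ^*)^(n + q)`; its function field is `L`, the `x i` are the coordinates on
`X₀`. Suppose that the pair is nondegenerate along `X₀`: for every integral vector `v` and every
subset `V` of `1, ..., p` the logarithmic gradients of the initial parts `ini v (f l)`, `ini v (h j)`,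
`j ∈ V` (the sums of the terms on which the linear function `v` is minimal) are linearly independent
at the points of the initial degeneration of `X₀` in the direction `v` at which the `ini v (h j)`,
`j ∈ V`, vanish. This is true if the systems are nondegenerate in the sense of Khovanskii, so for
generic coefficients and arbitrary Newton polytopes. Let `c j ∈ [0, 1]` be the multiplicities of the
divisors `h j = 0`, and let the weight `A` give the multiplicities `1 - A v` of the divisors at
infinity, `v` being the vector of the orders of the `x i` (`bdry A c x h`). A projective pair `(X, Δ)`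
is a pair of the class (`IsNondegeneratePair`) if it is commensurable with such a pair `(X₀, Δ₀)`: the
function fields `K` of `X` and `L` of `X₀` have a common finite extension `M`, to which `K_X + Δ` and
`K_{X₀} + Δ₀` have the same pull-back, and the log discrepancies of `(X, Δ)` are at least the ones
given by `Δ₀`.

**Theorem.** Let `(X, Δ)` and `(X, Δ')` be pairs of the class, with `Δ ≤ Δ'`, and suppose that
`K_X + Δ` is pseudoeffective. Let `Z` be a set of prime divisors in the stable base locus of `K_X + Δ`,
or, more generally, in the support of one effective divisor which is `ℚ`-linearly equivalent to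
`K_X + Δ`. Let `B` be any effective `ℚ`-divisor which has the same support as `Δ' - Δ` outside of `Z`;
the multiplicities of `B` are arbitrary. Let `r > 0` be rational, and let `D` be a `ℚ`-divisor which is
`ℚ`-linearly equivalent to `r (K_X + Δ) + B`. Then `κ (D) = ν (D) ≥ 0`.

For `Δ = 0` these are the divisors of the conjecture of Lazić and Peternell (generalised abundance):
`K_X` is pseudoeffective and `D = (1 / m) (K_X + N)`, where the class of `N = m D - K_X` contains an
effective divisor with the given support. For example, let `X` be any projective manifold which is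
birational to `X₀`; the pair `(X, 0)` is in the class, with `A = 1` and `c = 0`. Let `S` be a convex
cone, and let `Δ'` be a small multiple of the sum of the prime divisors `P` for which the vector `v P`
of the orders of the `x i` is not in `S` (and not zero) and of the zeros of the `h j` in the torus.
Then `(X, Δ')` is in the class, too (the weight is `1` on `S` and slightly smaller than `1` outside,
and manifolds are terminal). So `κ (D) = ν (D) ≥ 0` for all `D ~ r K_X + B` where `B` is effective and
has the same support as `Δ'` outside of the stable base locus of `K_X` (or outside of one given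
divisor `E ~ K_X`). If in addition `D` and `m D - K_X` are nef, then `D` is semiample, by the theorem
of Kawamata (1985) on nef and abundant divisors, because the theorem can be applied to the divisors
`t D - K_X` as well; so every nef `L` with `L^m ⊗ K_X^*` nef, which is numerically equivalent to such a
`D`, is numerically semiample. Kawamata's theorem is not formalised here.

Proof. The pairs of the class satisfy `κ = ν` (library `R885` of the starting repository, an induction
on `q`). As `K_X + Δ` is pseudoeffective, it is `ℚ`-linearly equivalent to an effective divisor `E`,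
which contains `Z`. So `D` is `ℚ`-linearly equivalent to `r E + B`, which has the same support as the
divisor `E + Δ' - Δ`, which is `ℚ`-linearly equivalent to `K_X + Δ'`. Effective divisors with the same
support have the same dimensions; for the dimension `κ` of `D` some independent sections of multiples
of `D` are constructed (products of powers of sections of multiples of `K_X + Δ'` and of the section
with divisor `E`), and for `ν` the sections of `m D + A` are embedded in the space of sections of
`m' (K_X + Δ') + A'` (`T2H41.GA.transfer`).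

The language of the library is used: `X` is given by the homogeneous coordinates `y` of its generic
point, the prime divisors of `X` are places `P` of `K`, `P.ord` is the order along `P`.
-/

set_option autoImplicit false

open FF Filter IntermediateField Pool.Agent Pool.Agent.W602.GT Pool.Agent.Y172 Pool.Agent.Y191
  Pool.Agent.Y174 Pool.Agent.R885

namespace Pool.Agent.Results.MP_1149f4_ag.NondegenerateGeneralised

section

variable {L : Type} [Field L] [Algebra ℂ L]

/-- `x` is the generic point of a subvariety `X₀` of dimension `n`, with function field `L`, of the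
set of common zeros of the `f l` in the torus `(ℂ^*) ^ r`, not contained in the sets `h j = 0`. -/
def IsGenericPoint {r q p : ℕ} (n : ℕ) (f : Fin q → (Fin r → ℤ) →₀ ℂ)
    (h : Fin p → (Fin r → ℤ) →₀ ℂ) (x : Fin r → L) : Prop :=
  (∀ i, x i ≠ 0) ∧ (∀ l, ev x (f l) = 0) ∧ (∀ j, ev x (h j) ≠ 0) ∧
    IntermediateField.adjoin ℂ (Set.range x) = ⊤ ∧ Algebra.trdeg ℂ L = (n : ℕ)

/-- The pair is nondegenerate along the subvariety `X₀` of the torus with the generic point `x`: for
all subsets `V` and all integral vectors `v`, the logarithmic gradients of the initial parts of the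
`f l` and of the `h j`, `j ∈ V`, are linearly independent at the points `c` of the initial
degeneration of `X₀` at which the initial parts of the `h j`, `j ∈ V`, vanish. -/
def Nondegenerate {r q p : ℕ} (f : Fin q → (Fin r → ℤ) →₀ ℂ) (h : Fin p → (Fin r → ℤ) →₀ ℂ)
    (x : Fin r → L) : Prop :=
  ∀ (V : Finset (Fin p)) (v : Fin r → ℤ) (c : Fin r → ℂ), (∀ i, c i ≠ 0) →
    (∀ g : (Fin r → ℤ) →₀ ℂ, ev x g = 0 → ev c (ini v g) = 0) →
      (∀ j ∈ V, ev c (ini v (h j)) = 0) →
        LinearIndependent ℂ (Sum.elim (fun l => gr c (ini v (f l))) fun j : V => gr c (ini v (h j)))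

/-- The function `A` on the integral vectors is a weight: on the nonzero vectors it is at least `0`,
at most `1`, with bounded denominators, `A (v + w) ≥ A v + A w - 1` and `A (g v) ≤ g A v`. -/
structure IsWeight {r : ℕ} (A : (Fin r → ℤ) → ℚ) : Prop where
  nonneg : ∀ v, v ≠ 0 → 0 ≤ A v
  le_one : ∀ v, A v ≤ 1
  denom : ∃ D : ℕ, 1 ≤ D ∧ ∀ v, ∃ z : ℤ, (D : ℚ) * A v = z
  add : ∀ v w, v ≠ 0 → w ≠ 0 → v + w ≠ 0 → A v + A w - 1 ≤ A (v + w)
  smul : ∀ (g : ℤ) v, 0 < g → v ≠ 0 → A (g • v) ≤ g * A v

end

section

variable {K L : Type} [Field K] [Field L] [Algebra ℂ K] [Algebra ℂ L]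

/-- `(X, Δ)` is a projective pair with function field `K` which is commensurable with the pair
`(X₀, Δ₀)` with function field `L`, where `b` gives the multiplicities of `Δ₀`: the pull-backs of
`K_X + Δ` and of `K_{X₀} + Δ₀` to the common finite extension `M` of `K` and `L` coincide. That is, if
the place `P'` of `M` lies over the prime divisor `P` of `X` and over the place `Q` of `L`, with the
ramification indices `e` and `e'`, then `e (1 - Δ P) = e' (1 - b Q)`. Moreover, for all divisors `P`
over `X`, the log discrepancy of `(X, Δ)` along `P` is at least `e' (1 - b Q) / e`. -/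
structure IsCommensurable (M : Type) [Field M] [Algebra ℂ M] [Algebra K M] [Algebra L M]
    (b : Place ℂ L → ℚ) {N : ℕ} (y : Fin (N + 1) → K) (n : ℕ) (Δ : Place ℂ K → ℚ) : Prop where
  normal : NormalModel y
  effective : Effective y Δ
  mult : ∀ P, IsPrimeDivisor y P → ∀ (P' : Place ℂ M) (Q : Place ℂ L) (e e' : ℕ),
    LiesOn P' P e → LiesOn P' Q e' → (e : ℚ) * (1 - Δ P) = e' * (1 - b Q)
  disc : ∀ P, Divisorial n P → ∀ (P' : Place ℂ M) (Q : Place ℂ L) (e e' : ℕ),
    LiesOn P' P e → LiesOn P' Q e' → LogDisc y n Δ P (e' * (1 - b Q) / e)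

end

section

variable {K : Type} [Field K] [Algebra ℂ K] {N : ℕ}

/-- `(X, Δ)` is a projective pair which is commensurable with a nondegenerate pair `(X₀, Δ₀)`, where
`X₀` is a component of dimension `n` of the set of the zeros of `q` Laurent polynomials `f l` in the
torus of dimension `n + q`, `A` is a weight, the `c j` are in `[0, 1]`, and `Δ₀` is the boundary with
the multiplicities `bdry A c x h`. -/
def IsNondegeneratePair (y : Fin (N + 1) → K) (n : ℕ) (Δ : Place ℂ K → ℚ) : Prop :=
  ∃ (q p : ℕ) (f : Fin q → (Fin (n + q) → ℤ) →₀ ℂ) (h : Fin p → (Fin (n + q) → ℤ) →₀ ℂ)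
    (L M : Type) (_ : Field L) (_ : Field M) (_ : Algebra ℂ L) (_ : Algebra ℂ M)
    (_ : Algebra K M) (_ : Algebra L M) (_ : IsScalarTower ℂ K M) (_ : IsScalarTower ℂ L M)
    (x : Fin (n + q) → L) (A : (Fin (n + q) → ℤ) → ℚ) (c : Fin p → ℚ),
    FiniteDimensional K M ∧ FiniteDimensional L M ∧ IsGenericPoint n f h x ∧
      Nondegenerate f h x ∧ IsWeight A ∧ (∀ j, 0 ≤ c j ∧ c j ≤ 1) ∧
      IsCommensurable M (bdry A c x h) y n Δ

/-- `K_X + Δ` is pseudoeffective: for some effective divisor `H` there are arbitrarily large `m` such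
that `m (K_X + Δ) + H` has a nonzero section. -/
def Pseudoeffective (y : Fin (N + 1) → K) (n : ℕ) (Δ : Place ℂ K → ℚ) : Prop :=
  ∃ H, Effective y H ∧ ∀ M : ℕ, ∃ m, M ≤ m ∧ h0 y n m (m • Δ + H) ≠ 0

/-- The prime divisor `P` is in the stable base locus of `K_X + Δ`: for all `m ≥ 1` and all nonzero
sections `ω` of `m (K_X + Δ)`, the divisor `div ω + m Δ` contains `P`. -/
def InStableBase (y : Fin (N + 1) → K) (n : ℕ) (Δ : Place ℂ K → ℚ) (P : Place ℂ K) : Prop :=
  ∀ m : ℕ, 1 ≤ m → ∀ ω : (Fin n → Derivation ℂ K K) → K, ω ≠ 0 →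
    Y172.IsSection y n m (m • Δ) ω → ¬ OrdEq P ω (-(m * Δ P))

/-- The prime divisors in `Z` are in the stable base locus of `K_X + Δ`, or they are components of
the divisor `div ω + m Δ` of one nonzero section `ω` of a multiple `m (K_X + Δ)`, `m ≥ 1`. -/
def IsCovered (y : Fin (N + 1) → K) (n : ℕ) (Δ : Place ℂ K → ℚ) (Z : Set (Place ℂ K)) : Prop :=
  (∀ P ∈ Z, InStableBase y n Δ P) ∨ ∃ m : ℕ, 1 ≤ m ∧ ∃ ω : (Fin n → Derivation ℂ K K) → K,
    ω ≠ 0 ∧ Y172.IsSection y n m (m • Δ) ω ∧ ∀ P ∈ Z, ¬ OrdEq P ω (-(m * Δ P))

/-- `D` is a `ℚ`-divisor on `X`: it has finitely many components. -/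
def IsDivisor (y : Fin (N + 1) → K) (D : Place ℂ K → ℚ) : Prop :=
  {P | IsPrimeDivisor y P ∧ D P ≠ 0}.Finite

/-- `D` is `ℚ`-linearly equivalent to `r (K_X + Δ) + B` for some rational number `r > 0`: with
`r = a / b` we have `b D = div η + a Δ + b B` for some `a`-canonical form `η ≠ 0`. -/
def IsAdjoint (y : Fin (N + 1) → K) (n : ℕ) (D Δ B : Place ℂ K → ℚ) : Prop :=
  ∃ a b : ℕ, 1 ≤ a ∧ 1 ≤ b ∧ ∃ η : (Fin n → Derivation ℂ K K) → K, η ≠ 0 ∧ IsPluri a η ∧
    ∀ P, IsPrimeDivisor y P → OrdEq P η (b * D P - a * Δ P - b * B P)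

/-- The rational function `g` on `X` is zero or has `div g + D ≥ 0`. -/
def IsSection (y : Fin (N + 1) → K) (D : Place ℂ K → ℚ) (g : K) : Prop :=
  ∀ P, IsPrimeDivisor y P → g = 0 ∨ -(D P) ≤ P.ord g

/-- `h⁰ (X, D)`: the dimension of the space of the rational functions `g` on `X` which are zero or
satisfy `div g + D ≥ 0`. -/
noncomputable def h0D (y : Fin (N + 1) → K) (D : Place ℂ K → ℚ) : ℕ :=
  Module.finrank ℂ (Submodule.span ℂ {g : K | IsSection y D g})

open scoped Classical in
/-- The Iitaka dimension of the `ℚ`-divisor `D`: it is `⊥` if `h⁰ (X, m D) = 0` for all `m ≥ 1` such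
that `m D` is integral, and otherwise the largest `k` such that the upper limit of
`h⁰ (X, m D) / m ^ k` over these `m` is positive. -/
noncomputable def iitakaDim (y : Fin (N + 1) → K) (D : Place ℂ K → ℚ) : WithBot ℕ :=
  if ∀ m : ℕ, 1 ≤ m → Integral y (m • D) → h0D y (m • D) = 0 then ⊥ else
    ((sSup {k : ℕ | 0 < limsup (fun m : ℕ => (h0D y (m • D) : ENNReal) / (m : ENNReal) ^ k)
      (atTop ⊓ 𝓟 {m : ℕ | 1 ≤ m ∧ Integral y (m • D)})} : ℕ) : WithBot ℕ)

/-- The numerical dimension of the `ℚ`-divisor `D` with respect to the divisor `A`: the upper limit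
of `log h⁰ (X, m D + A) / log m` over the `m ≥ 1` such that `m D + A` is integral. -/
noncomputable def numDim (y : Fin (N + 1) → K) (D A : Place ℂ K → ℚ) : EReal :=
  limsup (fun m : ℕ => ENNReal.log (h0D y (m • D + A) : ENNReal) / (Real.log m : EReal))
    (atTop ⊓ 𝓟 {m : ℕ | 1 ≤ m ∧ Integral y (m • D + A)})

theorem IsNondegeneratePair.data {n : ℕ} (hn : 1 ≤ n) {y : Fin (N + 1) → K} {Δ : Place ℂ K → ℚ}
    (h : IsNondegeneratePair y n Δ) : NormalModel y ∧ Effective y Δ ∧
      R885.N.PData (n := n) y Δ (fun δ => R885.N.PosB ℂ K n δ ∨ R885.N.NegB ℂ K n δ) := by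
  obtain ⟨q, p, f, h, L, M, i1, i2, i3, i4, i5, i6, i7, i8, x, A, c, h1, h2, hx, hfh, hA, hc,
    hy⟩ := h
  exact ⟨hy.normal, hy.effective, (R885.N.qfinalY (M := M) hn hx.2.2.2.2 hx.1 hx.2.2.2.1 hx.2.1
    hx.2.2.1 hfh ⟨hA.nonneg, hA.le_one, hA.denom, hA.add, hA.smul⟩ hc
    ⟨hy.normal, hy.effective, hy.mult, hy.disc⟩).1⟩

end

/-- **Generalised abundance.** Let `(X, Δ)` and `(X, Δ')` be projective pairs of dimension `n ≥ 1`
which are commensurable with nondegenerate pairs, `Δ ≤ Δ'`, and let `K_X + Δ` be pseudoeffective. Let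
`Z` be a set of prime divisors which are in the stable base locus of `K_X + Δ`, or components of the
divisor of one section of a multiple of `K_X + Δ`. Let `B` be an effective `ℚ`-divisor which has the
same support as `Δ' - Δ` outside of `Z`, and let the `ℚ`-divisor `D` be `ℚ`-linearly equivalent to
`r (K_X + Δ) + B`, `r > 0`. Then the Iitaka dimension and the numerical dimension of `D` are equal,
and they are at least `0`. -/
theorem result {n : ℕ} (hn : 1 ≤ n) {K : Type} [Field K] [Algebra ℂ K] {N : ℕ}
    {y : Fin (N + 1) → K} {Δ Δ' B D : Place ℂ K → ℚ} (hΔ : IsNondegeneratePair y n Δ)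
    (hΔ' : IsNondegeneratePair y n Δ') (hle : ∀ P, IsPrimeDivisor y P → Δ P ≤ Δ' P)
    (hK : Pseudoeffective y n Δ) {Z : Set (Place ℂ K)} (hZ : IsCovered y n Δ Z)
    (hB : Effective y B)
    (hBΔ : ∀ P, IsPrimeDivisor y P → P ∉ Z → (B P = 0 ↔ Δ P = Δ' P))
    (hD : IsDivisor y D) (hDB : IsAdjoint y n D Δ B) :
    ∃ d : ℕ, d ≤ n ∧ iitakaDim y D = (d : WithBot ℕ) ∧
      ∀ A, Effective y A → Integral y A → numDim y D A = (d : EReal) := by
  obtain ⟨hy, hE, htr, β, h1, h2, h3⟩ := hΔ.data hn
  obtain ⟨-, hE', -, β', h1', h2', h3'⟩ := hΔ'.data hn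
  obtain ⟨a, b, ha, hb, η, hη0, hη, hηP⟩ := hDB
  exact T2H41.GA.main htr hy hE hE' h1 h2 h3 h1' h2' h3' hle hK hZ hB hBΔ hD ha hb hη hη0 hηP

end Pool.Agent.Results.MP_1149f4_ag.NondegenerateGeneralised
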